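import Pool.Agent.U991.F5.C62.Part00
import Pool.Agent.U991.F5.C62.Part01
import Pool.Agent.U991.F5.C62.Part10
import Pool.Agent.U991.F5.C62.Part11
import Pool.Agent.U991.F5.C62.Psd

set_option autoImplicit false
set_option maxRecDepth 100000
set_option maxHeartbeats 4000000
open Finset

namespace Pool.Agent.U991.F5.C62
open Pool.Agent.H122R2.N6 Pool.Agent.H37R3.Pen Pool.Agent.Y580.FL Pool.Agent.U991.F5

theorem hc (b012 b013 b023 b123 b014 b024 b124 b034 b134 b234 : ℕ) (hb012 : Bt b012) (hb013 : Bt b013) (hb023 : Bt b023) (hb123 : Bt b123) (hb014 : Bt b014) (hb024 : Bt b024) (hb124 : Bt b124) (hb034 : Bt b034) (hb134 : Bt b134) (hb234 : Bt b234) (ht : tg b012 b013 b023 b123 b014 b024 b124 b034 b134 b234 = 4) :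
    chkV q4 q2 Z b012 b013 b023 b123 b014 b024 b124 b034 b134 b234 = true := by
  have h : part b012 b013 = true := by
    rcases hb012 with rfl | rfl <;> rcases hb013 with rfl | rfl
    exacts [part00, part01, part10, part11]
  have h2 := (B2_true (B2_true (B2_true (B2_true (B2_true (B2_true (B2_true (B2_true h hb023) hb123) hb014) hb024) hb124) hb034) hb134) hb234)
  refine or_false_left h2 ?_
  rw [ht]
  rfl

theorem rng : (nall 16 fun c => and (Nat.blt (rho c) 4) (nall 64 fun i => Nat.blt (pc c i) 64)) = true := by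
  decide +kernel

theorem rho_lt {c : ℕ} (h : c < 16) : rho c < 4 := by
  have := nall_true rng c h
  rw [Bool.and_eq_true] at this
  exact Nat.le_of_ble_eq_true this.1

theorem pc_lt {c i : ℕ} (h : c < 16) (hi : i < 64) : pc c i < 64 := by
  have := nall_true rng c h
  rw [Bool.and_eq_true] at this
  exact Nat.le_of_ble_eq_true (nall_true this.2 i hi)

theorem g4_all {r i j : ℕ} (hr : r < 4) (hi : i < 64) (hj : j < 64) : g4 r i j = true := by
  have h : chk4 r = true := by
    interval_cases r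
    exacts [cp0, cp1, cp2, cp3]
  exact nall_true (nall_true h i hi) j hj

theorem hq4 (c i j : ℕ) (hc : c < 16) (hi : i < 64) (hj : j < 64) : (q4 c i j : ℤ) =
    ∑ k ∈ range 69, (w4 (rho c) k : ℤ) * ((l4 (rho c) (pc c i) k : ℤ) - 262144) *
      ((l4 (rho c) (pc c j) k : ℤ) - 262144) + (18446744073709551616 + (fun _ : ℕ => (0 : ℤ)) c) := by
  have h := Nat.eq_of_beq_eq_true (g4_all (rho_lt hc) (pc_lt hc hi) (pc_lt hc hj))
  unfold ll sw sl at h
  rw [nsum_eq, nsum_eq, nsum_eq, nsum_eq] at h
  have h2 := congrArg (fun n : ℕ => (n : ℤ)) h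
  simp only [Nat.add_eq, Nat.mul_eq] at h2
  push_cast at h2
  rw [expand (range 69) (fun k => w4 (rho c) k) (fun k => l4 (rho c) (pc c i) k)
    (fun k => l4 (rho c) (pc c j) k) 262144]
  have h3 : (q4 c i j : ℤ) = (tq (rho c) (pc c i) (pc c j) : ℤ) := rfl
  rw [h3]
  linarith

theorem hq2 (i j : ℕ) (hi : i < 16) (hj : j < 16) : (q2 i j : ℤ) =
    ∑ k ∈ range 40, (w2 k : ℤ) * ((l2 i k : ℤ) - 262144) * ((l2 j k : ℤ) - 262144)
      + (18446744073709551616 + (fun _ : ℕ => (0 : ℤ)) (kk i j)) := by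
  have h := Nat.eq_of_beq_eq_true (nall_true (nall_true cpb i hi) j hj)
  unfold ll2 sw2 sl2 at h
  rw [nsum_eq, nsum_eq, nsum_eq, nsum_eq] at h
  have h2 := congrArg (fun n : ℕ => (n : ℤ)) h
  simp only [Nat.add_eq, Nat.mul_eq] at h2
  push_cast at h2
  rw [expand (range 40) (fun k => w2 k) (fun k => l2 i k) (fun k => l2 j k) 262144]
  linarith

theorem tab_inv : Pool.Agent.R85.GT.invk tab = true := by decide +kernel

theorem tab_le (c : ℕ) : tab c ≤ 256 := (Nat.mod_lt _ (by norm_num)).le

/-- the inequality of the certificate -/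
theorem main {V : Type} [Fintype V] {E : V → V → V → ℕ} (hE : Sy E) (hK : NoK4 E) :
    6 * 226422353679516720 * (Fintype.card V * Pool.Agent.R85.GT.S5 tab E) ≤ 9727775195119977600 * (Fintype.card V) ^ 6 +
      2717068244154200640 * ∑ x : Fin 6 → V, Pool.Agent.Y850.FA.XM E 14 (x 0) (x 1) (x 2) (x 3) (x 4) (x 5) := by
  have hb := boundY E hE 69 40 (ZE E Z) q4
    (fun c k => w4 (rho c) k) (fun c i k => l4 (rho c) (pc c i) k)
    q2 w2 l2 262144 18446744073709551616 18446744073709551616 (fun _ => (0 : ℤ)) (fun _ => (0 : ℤ)) hq4 hq2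
    (leafV_all hE hK (hP0 hE tab_inv 226422353679516720 CST 2717068244154200640) (hP1 hE tab_inv 226422353679516720 CST 2717068244154200640)
      (hP2 hE tab_inv 226422353679516720 CST 2717068244154200640) (hP3 hE tab_inv 226422353679516720 CST 2717068244154200640) cs4 cs2 hc)
  rw [sv_zero, t2_zero, mul_zero, mul_zero, mul_zero, zero_add, zero_add] at hb
  exact conclP tab E 226422353679516720 CST 2717068244154200640 9727775195119977600 256 18446744073709551616 tab_le (by decide) rfl (by exact_mod_cast hb)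

end Pool.Agent.U991.F5.C62
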